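import Pool.Agent.Y258.SD.CStmts
import Pool.Agent.Y255.SD.A78

set_option autoImplicit false

/-!
# Fourier expansion of a level (statement `St_C10`)
-/

namespace Pool.Agent.Y838.SD

open Finset Pool.Agent.H470D4 Pool.Agent.Y258 Pool.Agent.Y255.SD
open Pool.Agent.H935R2.PS (La uu nn dl mx Suit)

section one
variable {q : ℕ} [Fact q.Prime]

/-- Fourier inversion for the coefficients `Fc` -/
lemma inv_Fc (t : ℕ) (φ : ℝ) (u : ZMod q) :
    ∑ x : ZMod q, Fc t φ x * ZMod.stdAddChar (x * u) =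
      ∑ j ∈ Icc 1 t, (if (j : ZMod q) + u = 0 then (1:ℂ) else 0) +
        (φ : ℂ) * (if u = 0 then 1 else 0) := by
  have hq' : (q : ℂ) ≠ 0 := by exact_mod_cast (NeZero.ne q)
  have e1 : ∀ x : ZMod q, Fc t φ x * ZMod.stdAddChar (x * u) =
      (∑ j ∈ Icc 1 t, (ZMod.stdAddChar (x * ((j : ZMod q) + u)) : ℂ) +
        (φ : ℂ) * ZMod.stdAddChar (x * u)) / q := by
    intro x
    unfold Fc
    rw [div_mul_eq_mul_div, add_mul, Finset.sum_mul]
    congr 2
    apply Finset.sum_congr rfl
    intro j _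
    rw [mul_add, AddChar.map_add_eq_mul]
  rw [Finset.sum_congr rfl (fun x _ => e1 x), ← Finset.sum_div, Finset.sum_add_distrib,
    Finset.sum_comm, ← Finset.mul_sum]
  rw [Pool.Agent.H935R2.PS.TA2.sum_char']
  rw [Finset.sum_congr rfl (fun (j : ℕ) _ =>
    Pool.Agent.H935R2.PS.TA2.sum_char' ((j : ZMod q) + u)), add_div, Finset.sum_div]
  congr 1
  · apply Finset.sum_congr rfl
    intro j _
    split_ifs
    · exact div_self hq'
    · simp
  · split_ifs
    · field_simp
    · simp

/-- the number of elements of the interval -/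
lemma sum_interval (v x : ZMod q) :
    ∑ j ∈ Icc 1 x.val, (if (j : ZMod q) + (v - x) = 0 then (1:ℂ) else 0) =
      ((ii (v.val < x.val) : ℝ) : ℂ) := by
  have hxq : x.val < q := ZMod.val_lt x
  by_cases h : v.val < x.val
  · rw [ii_true h, Complex.ofReal_one, Finset.sum_eq_single (x.val - v.val)]
    · rw [if_pos]
      rw [Nat.cast_sub h.le, ZMod.natCast_zmod_val, ZMod.natCast_zmod_val]
      ring
    · intro j hj hne
      rw [if_neg]
      intro h0
      apply hne
      rw [mem_Icc] at hj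
      have h1 : (j : ZMod q) = ((x.val - v.val : ℕ) : ZMod q) := by
        rw [Nat.cast_sub h.le, ZMod.natCast_zmod_val, ZMod.natCast_zmod_val]
        linear_combination h0
      have h2 := congrArg ZMod.val h1
      rw [ZMod.val_natCast_of_lt (by omega), ZMod.val_natCast_of_lt (by omega)] at h2
      exact h2
    · intro hn
      exfalso
      apply hn
      rw [mem_Icc]
      omega
  · rw [ii_false h, Complex.ofReal_zero]
    apply Finset.sum_eq_zero
    intro j hj
    rw [if_neg]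
    intro h0
    apply h
    rw [mem_Icc] at hj
    have h1 : v = ((x.val - j : ℕ) : ZMod q) := by
      rw [Nat.cast_sub hj.2, ZMod.natCast_zmod_val]
      linear_combination h0
    rw [h1, ZMod.val_natCast_of_lt (by omega)]
    omega

lemma ind_Fc (v x : ZMod q) :
    ((ii (v.val < x.val) : ℝ) : ℂ) =
      ∑ h : ZMod q, Fc x.val 0 h * ZMod.stdAddChar (h * (v - x)) := by
  rw [inv_Fc, sum_interval]
  simp

/-- the test function of the last coordinate -/
lemma psi_Fc (m : ℕ) (Y : ℕ → ZMod q) (r : ℕ) (hr : r < m) (v : ZMod q) :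
    ((psiF m Y (fun _ => 0) r v : ℝ) : ℂ) =
      ∑ h : ZMod q, ((ii (h ≠ 0) : ℝ) : ℂ) *
        (Fc (Y r).val (tv (fun j => Y (j + (r+1))) (m - (r+1))) h *
          ZMod.stdAddChar (h * (v - Y r))) := by
  set f := tv (fun j => Y (j + (r+1))) (m - (r+1)) with hf
  have h1 : ∑ h : ZMod q, ((ii (h ≠ 0) : ℝ) : ℂ) *
        (Fc (Y r).val f h * ZMod.stdAddChar (h * (v - Y r))) =
      (∑ h : ZMod q, Fc (Y r).val f h * ZMod.stdAddChar (h * (v - Y r))) -
        Fc (q := q) (Y r).val f 0 := by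
    rw [eq_sub_iff_add_eq, ← Finset.add_sum_erase univ _ (mem_univ (0 : ZMod q)),
      ← Finset.add_sum_erase univ (fun h => Fc (Y r).val f h * ZMod.stdAddChar (h * (v - Y r)))
        (mem_univ (0 : ZMod q))]
    rw [ii_false (by simp), Complex.ofReal_zero, zero_mul, zero_add, zero_mul,
      AddChar.map_zero_eq_one, mul_one, add_comm]
    congr 1
    apply Finset.sum_congr rfl
    intro h hh
    rw [ii_true (Finset.ne_of_mem_erase hh), Complex.ofReal_one, one_mul]
  rw [h1, inv_Fc, sum_interval, Fc_zero]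
  unfold psiF
  rw [if_pos hr]
  have hk : m - r = (m - (r+1)) + 1 := by omega
  have h2 : tv (fun j => Y (j + r)) (m - r) = (((Y r).val : ℝ) + f) / q := by
    rw [hk, tv_succ]
    have h3 : (fun j => Y (j + 1 + r)) = fun j => Y (j + (r + 1)) := by
      funext j; congr 1; omega
    rw [h3, zero_add]
  rw [h2, ← hf]
  simp only [add_zero]
  push_cast
  congr 1
  congr 1
  rw [mul_comm]
  congr 1
  by_cases h : v = Y r
  · rw [ii_true h, if_pos (sub_eq_zero.2 h)]; simp
  · rw [ii_false h, if_neg (fun h' => h (sub_eq_zero.1 h'))]; simp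

lemma char_sum {ι : Type} (s : Finset ι) (f : ι → ZMod q) :
    (ZMod.stdAddChar (∑ i ∈ s, f i) : ℂ) = ∏ i ∈ s, (ZMod.stdAddChar (f i) : ℂ) := by
  classical
  induction s using Finset.induction_on with
  | empty => rw [Finset.sum_empty, Finset.prod_empty, AddChar.map_zero_eq_one]
  | insert a s ha ih => rw [Finset.sum_insert ha, Finset.prod_insert ha, AddChar.map_add_eq_mul, ih]

/-- character sum over a subspace -/
lemma sum_sub {V : Type} [AddCommGroup V] [Module (ZMod q) V] [Fintype V]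
    (A : Submodule (ZMod q) V) (L : V →ₗ[ZMod q] ZMod q) :
    ∑ α : V, ((ii (α ∈ A) : ℝ) : ℂ) * ZMod.stdAddChar (L α) =
      ((ii (∀ v ∈ A, L v = 0) : ℝ) : ℂ) * (q:ℂ) ^ Module.finrank (ZMod q) A := by
  classical
  by_cases h : ∀ v ∈ A, L v = 0
  · rw [ii_true h, Complex.ofReal_one, one_mul]
    have e1 : ∀ α : V, ((ii (α ∈ A) : ℝ) : ℂ) * ZMod.stdAddChar (L α) =
        ((ii (α ∈ A) : ℝ) : ℂ) := by
      intro α
      by_cases hα : α ∈ A
      · rw [h α hα, AddChar.map_zero_eq_one, mul_one]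
      · rw [ii_false hα]; simp
    rw [Finset.sum_congr rfl (fun α _ => e1 α)]
    have h2 := card_eq_sum_ii (univ : Finset V) (fun α => α ∈ A)
    have h3 : (univ.filter (fun α : V => α ∈ A)).card = q ^ Module.finrank (ZMod q) A := by
      rw [← Fintype.card_subtype]
      have h4 := Module.card_eq_pow_finrank (K := ZMod q) (V := A)
      rw [ZMod.card] at h4
      rw [← h4]
    rw [h3] at h2
    rw [← Complex.ofReal_sum, ← h2]
    push_cast
    rfl
  · rw [ii_false h, Complex.ofReal_zero, zero_mul]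
    push Not at h
    obtain ⟨v, hv, hLv⟩ := h
    set S := ∑ α : V, ((ii (α ∈ A) : ℝ) : ℂ) * (ZMod.stdAddChar (L α) : ℂ) with hS
    have h1 : S = ZMod.stdAddChar (L v) * S := by
      conv_lhs => rw [hS, ← Equiv.sum_comp (Equiv.addRight v)]
      rw [hS, Finset.mul_sum]
      apply Finset.sum_congr rfl
      intro α _
      rw [Equiv.coe_addRight, map_add, AddChar.map_add_eq_mul, ii_congr (A.add_mem_iff_left hv)]
      ring
    have h2 : (ZMod.stdAddChar (L v) : ℂ) ≠ 1 := by
      intro h3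
      apply hLv
      apply ZMod.injective_stdAddChar
      rw [h3, AddChar.map_zero_eq_one]
    have h3 : (ZMod.stdAddChar (L v) - 1 : ℂ) * S = 0 := by linear_combination -h1
    rcases mul_eq_zero.1 h3 with h4 | h4
    · exact absurd (sub_eq_zero.1 h4) h2
    · exact h4

end one

section main
variable {q M B n : ℕ} [Fact q.Prime]

/-- the contribution of one point -/
noncomputable def trm (c : Flg q M B n) (ω : Pth q B) (r : ℕ) (l : Fin (n+2) → ℕ)
    (X : Fin (n+2) → ℕ → ZMod q) (Y t : ℕ → ZMod q) (ν : Vec q M B) : ℝ :=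
  (∏ a, ii ((c a (l a) ν).val < (X a (l a)).val)) *
    psiF (M * B) Y (fun _ => 0) r (t r - row M ω r (xX M B X - ν))

lemma TT_eq (c : Flg q M B n) (ω : Pth q B) (r : ℕ) (l : Fin (n+2) → ℕ)
    (X : Fin (n+2) → ℕ → ZMod q) (Y t : ℕ → ZMod q) :
    TT c (cD M B X Y) t ω r l =
      ∑ ν : Vec q M B, ii (Agr0 c X Y ω l r ν) * trm c ω r l X Y t ν := by
  classical
  unfold TT
  have h1 : ∀ ν : Vec q M B, ν ∈ cell c (cD M B X Y) ω r l ↔
      (Agr0 c X Y ω l r ν ∧ ∀ a, (c a (l a) ν).val < (X a (l a)).val) := by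
    intro ν
    rw [mem_cell]
    unfold Lev Agr0 cD mkDat
    simp only [sub_zero, add_zero, mem_filter, mem_univ, true_and]
    constructor
    · rintro ⟨h1, h2⟩
      exact ⟨⟨fun a => (h1 a).1, h2⟩, fun a => (h1 a).2⟩
    · rintro ⟨⟨h1, h2⟩, h3⟩
      exact ⟨fun a => ⟨h1 a, h3 a⟩, h2⟩
  have h2 : cell c (cD M B X Y) ω r l = univ.filter
      (fun ν => Agr0 c X Y ω l r ν ∧ ∀ a, (c a (l a) ν).val < (X a (l a)).val) := by
    ext ν
    rw [h1, mem_filter]
    simp
  rw [h2, Finset.sum_filter]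
  apply Finset.sum_congr rfl
  intro ν _
  unfold trm
  have hx : xv M B (cD M B X Y) = xX M B X := by
    funext i
    unfold xv xX cD mkDat
    simp
  have hp : (cD M B X Y (n := n)).psi = psiF (M * B) Y (fun _ => 0) := rfl
  rw [hx, hp, ← mul_assoc, ← ii_forall, ← ii_and]
  by_cases h : Agr0 c X Y ω l r ν ∧ ∀ a, (c a (l a) ν).val < (X a (l a)).val
  · rw [if_pos h, ii_true h, one_mul]
  · rw [if_neg h, ii_false h, zero_mul]

/-- the expansion of the contribution of one point -/
lemma trm_eq (c : Flg q M B n) (ω : Pth q B) {r : ℕ} (hr : r < M * B) (l : Fin (n+2) → ℕ)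
    (X : Fin (n+2) → ℕ → ZMod q) (Y t : ℕ → ZMod q) (ν : Vec q M B) :
    ((trm c ω r l X Y t ν : ℝ) : ℂ) =
      ∑ H : Option (Fin (n+2)) → ZMod q, ((ii (H none ≠ 0) : ℝ) : ℂ) *
        ((∏ o, Fc (tO X Y l r o) (fO M B Y r o) (H o)) *
          ZMod.stdAddChar (∑ o, H o * uO c X Y t ω l r ν o)) := by
  classical
  set G : Option (Fin (n+2)) → ZMod q → ℂ := fun o h =>
    (o.elim ((ii (h ≠ 0) : ℝ) : ℂ) (fun _ => 1)) *
      (Fc (tO X Y l r o) (fO M B Y r o) h * ZMod.stdAddChar (h * uO c X Y t ω l r ν o)) with hG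
  have h1 : ((trm c ω r l X Y t ν : ℝ) : ℂ) = ∏ o, ∑ h : ZMod q, G o h := by
    rw [Fintype.prod_option, mul_comm]
    unfold trm
    push_cast
    congr 1
    · apply Finset.prod_congr rfl
      intro a _
      rw [ind_Fc]
      apply Finset.sum_congr rfl
      intro h _
      rw [hG]
      simp only [Option.elim, one_mul]
      rfl
    · rw [psi_Fc _ _ _ hr]
      rfl
  rw [h1, Finset.prod_univ_sum]
  rw [Fintype.piFinset_univ]
  apply Finset.sum_congr rfl
  intro H _
  rw [char_sum, ← Finset.prod_mul_distrib, Fintype.prod_option,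
    Fintype.prod_option, hG]
  simp only [Option.elim, one_mul]
  ring

/-- the linear form of a relation -/
noncomputable def LH (c : Flg q M B n) (ω : Pth q B) (l : Fin (n+2) → ℕ) (r : ℕ)
    (H : Option (Fin (n+2)) → ZMod q) : Vec q M B →ₗ[ZMod q] ZMod q :=
  ∑ a, H (some a) • c a (l a) + H none • row M ω r

lemma LH_apply (c : Flg q M B n) (ω : Pth q B) (l : Fin (n+2) → ℕ) (r : ℕ)
    (H : Option (Fin (n+2)) → ZMod q) (v : Vec q M B) :
    LH c ω l r H v = ∑ a, H (some a) * c a (l a) v + H none * row M ω r v := by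
  unfold LH
  simp [LinearMap.sum_apply]

lemma uO_add (c : Flg q M B n) (X : Fin (n+2) → ℕ → ZMod q) (Y t : ℕ → ZMod q) (ω : Pth q B)
    (l : Fin (n+2) → ℕ) (r : ℕ) (ν α : Vec q M B) (H : Option (Fin (n+2)) → ZMod q) :
    ∑ o, H o * uO c X Y t ω l r (ν + α) o =
      ∑ o, H o * uO c X Y t ω l r ν o + LH c ω l r H α := by
  rw [LH_apply, Fintype.sum_option, Fintype.sum_option]
  have h1 : ∀ a : Fin (n+2), H (some a) * uO c X Y t ω l r (ν + α) (some a) =
      H (some a) * uO c X Y t ω l r ν (some a) + H (some a) * c a (l a) α := by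
    intro a
    simp only [uO, Option.elim, map_add]
    ring
  rw [Finset.sum_congr rfl (fun a _ => h1 a), Finset.sum_add_distrib]
  have h2 : uO c X Y t ω l r (ν + α) none = uO c X Y t ω l r ν none + row M ω r α := by
    simp only [uO, Option.elim, map_add, map_sub]
    ring
  rw [h2]
  ring

lemma Agr0_add {c : Flg q M B n} {X : Fin (n+2) → ℕ → ZMod q} {Y : ℕ → ZMod q} {ω : Pth q B}
    {l : Fin (n+2) → ℕ} {r : ℕ} {ν : Vec q M B} (h : Agr0 c X Y ω l r ν) (α : Vec q M B) :
    Agr0 c X Y ω l r (ν + α) ↔ α ∈ AA c ω l r := by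
  rw [mem_AA]
  unfold Agr0
  constructor
  · rintro ⟨h1, h2⟩
    refine ⟨fun a j hj => ?_, fun j hj => ?_⟩
    · have h3 := h1 a j hj
      rw [map_add, h.1 a j hj] at h3
      linear_combination h3
    · have h3 := h2 j hj
      rw [map_add, h.2 j hj] at h3
      linear_combination h3
  · rintro ⟨h1, h2⟩
    refine ⟨fun a j hj => ?_, fun j hj => ?_⟩
    · rw [map_add, h.1 a j hj, h1 a j hj, add_zero]
    · rw [map_add, h.2 j hj, h2 j hj, add_zero]

/-- Fourier expansion of a level which contains a point agreeing with the corner -/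
lemma expansion (c : Flg q M B n) (ω : Pth q B) {r : ℕ} (hr : r < M * B) (l : Fin (n+2) → ℕ)
    (hE : Module.finrank (ZMod q) (AA c ω l r) = dm M B l r)
    (X : Fin (n+2) → ℕ → ZMod q) (Y t : ℕ → ZMod q) {ν : Vec q M B}
    (hν : Agr0 c X Y ω l r ν) :
    ((TT c (cD M B X Y) t ω r l : ℝ) : ℂ) =
      ∑ H : Option (Fin (n+2)) → ZMod q, (ii (H none ≠ 0 ∧ Rel c ω l r H) : ℂ) *
        ((q:ℂ) ^ dm M B l r * (∏ o, Fc (tO X Y l r o) (fO M B Y r o) (H o)) *
          ZMod.stdAddChar (∑ o, H o * uO c X Y t ω l r ν o)) := by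
  classical
  rw [TT_eq]
  push_cast
  rw [← Equiv.sum_comp (Equiv.addLeft ν)]
  have h1 : ∀ α : Vec q M B, ((ii (Agr0 c X Y ω l r ((Equiv.addLeft ν) α)) : ℝ) : ℂ) *
      ((trm c ω r l X Y t ((Equiv.addLeft ν) α) : ℝ) : ℂ) =
      ∑ H : Option (Fin (n+2)) → ZMod q, (((ii (H none ≠ 0) : ℝ) : ℂ) *
        ((∏ o, Fc (tO X Y l r o) (fO M B Y r o) (H o)) *
          ZMod.stdAddChar (∑ o, H o * uO c X Y t ω l r ν o))) *
        (((ii (α ∈ AA c ω l r) : ℝ) : ℂ) * ZMod.stdAddChar (LH c ω l r H α)) := by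
    intro α
    rw [Equiv.coe_addLeft, ii_congr (Agr0_add hν α), trm_eq c ω hr, Finset.mul_sum]
    apply Finset.sum_congr rfl
    intro H _
    rw [uO_add, AddChar.map_add_eq_mul]
    ring
  rw [Finset.sum_congr rfl (fun α _ => h1 α), Finset.sum_comm]
  apply Finset.sum_congr rfl
  intro H _
  rw [← Finset.mul_sum, sum_sub, hE, ii_and]
  have h2 : ii (∀ v ∈ AA c ω l r, LH c ω l r H v = 0) = ii (Pool.Agent.Y258.Rel c ω l r H) := by
    apply ii_congr
    unfold Pool.Agent.Y258.Rel
    constructor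
    · intro h v hv
      rw [← LH_apply]
      exact h v hv
    · intro h v hv
      rw [LH_apply]
      exact h v hv
  rw [h2]
  push_cast
  ring

lemma norm_Fc' {t : ℕ} {φ : ℝ} (ht : t < q) (h0 : 0 ≤ φ) (h1 : φ ≤ 1) (x : ZMod q) :
    ‖Fc t φ x‖ ≤ 1 / Pool.Agent.H935R2.PS.mx x := by
  by_cases hx : x = 0
  · subst hx
    have : Pool.Agent.H935R2.PS.mx (0 : ZMod q) = 1 := by
      unfold Pool.Agent.H935R2.PS.mx nn; simp
    rw [this, div_one]
    exact norm_Fc_zero ht h0 h1
  · rw [Pool.Agent.H935R2.PS.TA2.mx_eq x hx]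
    exact norm_Fc h0 h1 hx

lemma bound (c : Flg q M B n) (ω : Pth q B) {r : ℕ} (hr : r < M * B) (l : Fin (n+2) → ℕ)
    (hE : Module.finrank (ZMod q) (AA c ω l r) = dm M B l r)
    (X : Fin (n+2) → ℕ → ZMod q) (Y t : ℕ → ZMod q) :
    |TT c (cD M B X Y) t ω r l| ≤ RR c ω l r := by
  classical
  have hq' : (0 : ℝ) < q := by exact_mod_cast Nat.pos_of_ne_zero (NeZero.ne q)
  by_cases h : ∃ ν : Vec q M B, Agr0 c X Y ω l r ν
  · obtain ⟨ν, hν⟩ := h
    have h1 := expansion c ω hr l hE X Y t hν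
    rw [← Real.norm_eq_abs, ← Complex.norm_real, h1]
    refine (norm_sum_le _ _).trans ?_
    unfold RR
    rw [Finset.sum_filter]
    apply Finset.sum_le_sum
    intro H _
    by_cases hH : H none ≠ 0 ∧ Rel c ω l r H
    · rw [if_pos hH, ii_true hH, Complex.ofReal_one, one_mul, norm_mul, norm_mul,
        Pool.Agent.H935R2.PS.TA2.norm_char, mul_one, norm_pow, Complex.norm_natCast, norm_prod]
      apply mul_le_mul_of_nonneg_left _ (by positivity)
      unfold wm
      apply Finset.prod_le_prod (fun _ _ => norm_nonneg _)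
      intro o _
      apply norm_Fc'
      · unfold tO
        cases o with
        | none => exact ZMod.val_lt _
        | some a => exact ZMod.val_lt _
      · unfold fO
        cases o with
        | none => exact (tv_bounds _ _).1
        | some a => exact le_rfl
      · unfold fO
        cases o with
        | none => exact (tv_bounds _ _).2.le
        | some a => exact zero_le_one
    · rw [if_neg hH, ii_false hH, Complex.ofReal_zero, zero_mul, norm_zero]
  · have h1 : TT c (cD M B X Y) t ω r l = 0 := by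
      rw [TT_eq]
      apply Finset.sum_eq_zero
      intro ν _
      rw [ii_false (fun h' => h ⟨ν, h'⟩), zero_mul]
    rw [h1, abs_zero]
    unfold RR
    exact Finset.sum_nonneg fun H _ => mul_nonneg (by positivity) (wm_nonneg H)

/-- (C10) Fourier expansion of a level -/
theorem c10 : St_C10 := by
  intro n q _ M B c ω r l hr hE X Y t
  exact ⟨bound c ω hr l (hE l) X Y t, fun ν hν => expansion c ω hr l (hE l) X Y t hν⟩

end main

end Pool.Agent.Y838.SD
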